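import Pool.Agent.H.Brk.A
import Pool.Agent.H.MP_6ac155.B

set_option autoImplicit false
open Set Filter Topology

namespace Pool.Agent.H.MP_6dddf9

variable {I J : Type} [LinearOrder I]

theorem gen {Z Y : Type} {P : Set Z} (φ : Y → Set Z) (h : ∀ A ⊆ P, A.Countable → ∃ y, φ y = A)
    (c : ℕ → Set Y) (hc : ∀ y, ∃ n, y ∈ c n) : ∃ (n : ℕ) (A B : Set Z), A ⊆ P ∧ A.Countable ∧
      B.Countable ∧ Disjoint A B ∧ ∀ A' ⊆ P, ∀ B', A'.Countable → B'.Countable → Disjoint A' B' →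
        A ⊆ A' → B ⊆ B' → ∃ y ∈ c n, A' ⊆ φ y ∧ Disjoint (φ y) B' := by
  by_contra k
  push Not at k
  have : ∀ (n : ℕ) (p : {p : Set Z × Set Z // p.1 ⊆ P ∧ p.1.Countable ∧ p.2.Countable ∧
      Disjoint p.1 p.2}), ∃ q : {p : Set Z × Set Z // p.1 ⊆ P ∧ p.1.Countable ∧ p.2.Countable ∧
        Disjoint p.1 p.2}, p.1 ≤ q.1 ∧ ∀ y ∈ c n, q.1.1 ⊆ φ y → ¬ Disjoint (φ y) q.1.2 :=
    fun n p =>
      let ⟨A, a1, B, a2, a3, a4, a5, a6, a7⟩ := k n _ _ p.2.1 p.2.2.1 p.2.2.2.1 p.2.2.2.2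
      ⟨⟨(A, B), a1, a2, a3, a4⟩, ⟨a5, a6⟩, a7⟩
  choose g g1 g2 using this
  let s := fun n : ℕ => Nat.rec (motive := fun _ => {p : Set Z × Set Z // p.1 ⊆ P ∧ p.1.Countable ∧
    p.2.Countable ∧ Disjoint p.1 p.2}) ⟨(∅, ∅), by simp⟩ g n
  have m : Monotone fun n => (s n).1 := monotone_nat_of_le_succ fun n => g1 n (s n)
  obtain ⟨y, hy⟩ := h (⋃ n, (s n).1.1) (iUnion_subset fun n => (s n).2.1)
    (countable_iUnion fun n => (s n).2.2.1)
  obtain ⟨n, hn⟩ := hc y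
  refine g2 n (s n) y hn (hy ▸ subset_iUnion (fun n => (s n).1.1) (n + 1)) ?_
  rw [hy]
  exact disjoint_iUnion_left.2 fun i => (s (max i (n + 1))).2.2.2.2.mono (m (le_max_left _ _)).1
    (m (le_max_right i (n + 1))).2

theorem key (hb : ∀ s : Set I, s.Countable → ∃ b, ∀ a ∈ s, a < b) {ψ : J → Set (I × J)}
    (h1 : ∀ j, (ψ j).Countable) (h2 : ∀ γ, ∀ A ⊆ {z : I × J | γ < z.1}, A.Countable →
      ∃ j, ψ j ∩ {z | γ < z.1} = A) {u : I × J → Set (I × J)}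
    (hu : ∀ y, u y = insert y (ψ y.2 ∩ {z | y.1 < z.1})) (D : ℕ → Set (I × J))
    (hD : ∀ y, ∃ n, y ∈ D n) : ∃ n, ∃ x ∈ D n, ∀ s : Finset (Ultrafilter (I × J)), ∃ y ∈ D n,
      y ≠ x ∧ ∀ U ∈ s, (u y ∈ U ↔ u x ∈ U) := by
  choose n A B a1 a2 a3 a4 a5 using fun γ => gen (fun j => ψ j ∩ {z | γ < z.1}) (h2 γ)
    (fun n => {j | (γ, j) ∈ D n}) fun j => hD _
  obtain ⟨m, hm⟩ : ∃ m, ∀ b, ∃ γ, b < γ ∧ n γ = m := by
    by_contra k
    push Not at k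
    choose b hb' using k
    obtain ⟨c, hc⟩ := hb (range b) (countable_range b)
    exact hb' _ c (hc _ ⟨_, rfl⟩) rfl
  have : ∀ γ, ∃ δ, n δ = m ∧ γ < δ ∧ ∀ z ∈ A γ ∪ B γ, z.1 < δ := fun γ => by
    obtain ⟨b, hb⟩ := hb (insert γ (Prod.fst '' (A γ ∪ B γ)))
      ((((a2 γ).union (a3 γ)).image _).insert _)
    obtain ⟨δ, d1, d2⟩ := hm b
    exact ⟨δ, d2, (hb _ (.inl rfl)).trans d1, fun z hz => (hb _ (.inr ⟨z, hz, rfl⟩)).trans d1⟩
  choose f f1 f2 f3 using this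
  obtain ⟨γ0, -⟩ := hb ∅ countable_empty
  let γ : ℕ → I := fun j => f^[j + 1] γ0
  have e : ∀ j, γ (j + 1) = f (γ j) := fun j => Function.iterate_succ_apply' _ _ _
  have g1 : ∀ j, n (γ j) = m := fun j => by
    simp only [γ, Function.iterate_succ_apply', f1]
  have g2 : StrictMono γ := strictMono_nat_of_lt_succ fun j => e j ▸ f2 _
  obtain ⟨b, hb⟩ := hb (range γ) (countable_range γ)
  have hα : ∀ j, γ j < f b := fun j => (hb _ ⟨j, rfl⟩).trans (f2 b)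
  obtain ⟨ξ, x1, -⟩ := a5 (f b) _ (a1 _) _ (a2 _) (a3 _) (a4 _) le_rfl le_rfl
  have x2 : ∀ z ∈ u (f b, ξ), f b ≤ z.1 := fun z hz => by
    rw [hu] at hz
    exact hz.elim (fun e => by rw [e]) fun e => le_of_lt e.2
  have x3 : (u (f b, ξ)).Countable := hu _ ▸ ((h1 _).mono inter_subset_left).insert _
  refine ⟨m, (f b, ξ), f1 b ▸ x1, fun s => ?_⟩
  have : ∀ U : Ultrafilter (I × J), ∃ C : Set (I × J), C.Countable ∧
      ∀ E : Set (I × J), E.Countable → Disjoint E C → E ∉ U := fun U => by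
    by_cases k : ∃ C ∈ U, C.Countable
    · obtain ⟨C, c1, c2⟩ := k
      exact ⟨C, c2, fun E _ d a => (U.nonempty_of_mem (inter_mem a c1)).not_disjoint d⟩
    · exact ⟨∅, countable_empty, fun E a _ b => k ⟨E, b, a⟩⟩
  choose C C1 C2 using this
  obtain ⟨j, hj⟩ := (s.finite_toSet.biUnion (t := fun U => {j | {z : I × J | γ j ≤ z.1 ∧
      z.1 < γ (j + 1)} ∈ U}) fun U _ => Subsingleton.finite fun i hi j hj => by
    obtain ⟨z, z1, z2⟩ := U.nonempty_of_mem (inter_mem hi hj)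
    have := g2.lt_iff_lt.1 (z1.1.trans_lt z2.2)
    have := g2.lt_iff_lt.1 (z2.1.trans_lt z1.2)
    omega).exists_notMem
  have d : ∀ z ∈ A (γ j) ∪ B (γ j), z.1 < γ (j + 1) := fun z hz => e j ▸ f3 _ z hz
  obtain ⟨η, y1, y2, y3⟩ := a5 (γ j) (A (γ j) ∪ u (f b, ξ)) (union_subset (a1 _) fun z hz =>
    (hα j).trans_le (x2 z hz)) (B (γ j) ∪ (⋃ U ∈ s, C U) \ (A (γ j) ∪ u (f b, ξ)))
    ((a2 _).union x3) ((a3 _).union ((s.countable_toSet.biUnion fun U _ => C1 U).mono diff_subset))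
    (disjoint_union_right.2 ⟨disjoint_union_left.2 ⟨a4 _, disjoint_left.2 fun z a c =>
      ((d z (.inr c)).trans (hα _)).not_ge (x2 z a)⟩, disjoint_sdiff_right⟩)
    subset_union_left subset_union_left
  refine ⟨(γ j, η), g1 j ▸ y1, fun k => (hα j).ne (congrArg Prod.fst k), fun U hU =>
    ⟨fun k => by_contra fun k' => C2 U ((ψ η ∩ {z | γ j < z.1}) \ (A (γ j) ∪ u (f b, ξ)))
      ((h1 η).mono fun z hz => hz.1.1) (disjoint_left.2 fun z a c => disjoint_left.1 y3 a.1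
        (.inr ⟨mem_biUnion hU c, a.2⟩)) ?_, fun k => mem_of_superset k fun z hz => ?_⟩⟩
  · filter_upwards [k, Ultrafilter.compl_mem_iff_notMem.2 k', Ultrafilter.compl_mem_iff_notMem.2
      fun k => hj (mem_biUnion hU k)] with z z1 z2 z3
    rw [hu] at z1
    rcases z1 with rfl | z1
    · exact (z3 ⟨le_rfl, g2 (Nat.lt_succ_self j)⟩).elim
    · exact ⟨z1, fun k => k.elim (fun k => z3 ⟨le_of_lt z1.2, d z (.inl k)⟩) z2⟩
  · rw [hu]
    exact .inr (y2 (.inr hz))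

theorem sur (hI : Cardinal.mk I ≤ Cardinal.continuum) : ∃ ψ : ℝ → Set (I × ℝ),
    (∀ j, (ψ j).Countable) ∧ ∀ γ, ∀ A ⊆ {z : I × ℝ | γ < z.1}, A.Countable →
      ∃ j, ψ j ∩ {z | γ < z.1} = A := by
  obtain ⟨e⟩ : Nonempty ((ℕ → I × ℝ) ↪ ℝ) := by
    rw [← Cardinal.le_def]
    simp only [Cardinal.mk_pi, Cardinal.mk_prod, Cardinal.lift_id, Cardinal.mk_real,
      Cardinal.prod_const, Cardinal.mk_nat]
    refine (Cardinal.power_le_power_right ((mul_le_mul_left hI _).trans_eq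
      Cardinal.continuum_mul_self)).trans_eq Cardinal.continuum_power_aleph0
  refine ⟨fun r => ⋃ a ∈ e ⁻¹' {r}, range a, fun r => (((countable_singleton r).preimage
    e.injective).biUnion fun a _ => countable_range a), fun γ A a1 a2 => ?_⟩
  obtain ⟨a, ha⟩ := (a2.insert (γ, 0)).exists_eq_range (insert_nonempty _ _)
  refine ⟨e a, ?_⟩
  beta_reduce
  rw [← image_singleton, e.injective.preimage_image, biUnion_singleton, ← ha,
    insert_inter_of_notMem (by simp), inter_eq_left.2 a1]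

theorem main [WellFoundedLT I] (hb : ∀ s : Set I, s.Countable → ∃ b, ∀ a ∈ s, a < b)
    (hI : Cardinal.mk I ≤ Cardinal.continuum) : ∃ (X : Type) (_ : TopologicalSpace X),
      (∃ (K : Type) (_ : TopologicalSpace K) (_ : CompactSpace K) (_ : T2Space K)
          (f : X → K → ℝ), IsEmbedding f ∧ ∀ x, Continuous (f x)) ∧
      (∃ W : X → Set X, (∀ z, IsOpen (W z) ∧ z ∈ W z) ∧ (∀ y, {z | y ∈ W z}.Countable) ∧
        ∀ S : Set X, S.Nonempty → ∃ x ∈ S, W x ∩ S = {x}) ∧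
      ∀ D : ℕ → Set X, (∀ y, ∃ n, y ∈ D n) → ∃ n, ∃ x ∈ D n, ∀ U, IsOpen U → x ∈ U →
        ∃ y ∈ D n, y ≠ x ∧ y ∈ U := by
  obtain ⟨ψ, h1, h2⟩ := sur hI
  obtain ⟨u, hu⟩ : ∃ u : I × ℝ → Set (I × ℝ), ∀ y, u y = insert y (ψ y.2 ∩ {z | y.1 < z.1}) :=
    ⟨_, fun _ => rfl⟩
  let f : I × ℝ → Ultrafilter (I × ℝ) → ℝ := fun y => {U | u y ∈ U}.indicator 1
  have e : ∀ y z, f y (pure z) = 1 ↔ z ∈ u y := fun y z => indicator_eq_one_iff_mem ℝ
  have u1 : ∀ y, y ∈ u y := fun y => hu y ▸ mem_insert _ _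
  have u2 : ∀ y z, z ∈ u y → z = y ∨ y.1 < z.1 := fun y z h => by
    rw [hu] at h
    exact h.imp_right fun k => k.2
  let t : TopologicalSpace (I × ℝ) := .induced f inferInstance
  have i : IsInducing f := ⟨rfl⟩
  refine ⟨I × ℝ, t, ⟨_, _, inferInstance, inferInstance, f, ⟨i, fun x y h => ?_⟩, fun y =>
    IsClopen.continuous_indicator ⟨ultrafilter_isClosed_basic _, ultrafilter_isOpen_basic _⟩
      continuous_const⟩, ⟨fun z => {y | z ∈ u y}, fun z => ⟨?_, u1 z⟩, fun y => ?_,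
      fun S hS => ?_⟩, fun D hD => ?_⟩
  · rcases u2 x y ((e _ _).1 (h ▸ (e _ _).2 (u1 y))) with a | a
    · exact a.symm
    · exact (u2 y x ((e _ _).1 (h ▸ (e _ _).2 (u1 x)))).resolve_right a.not_gt
  · convert isOpen_ne_fun ((continuous_apply (pure z)).comp i.continuous)
      (continuous_const (y := 0)) using 1
    ext y
    exact ((indicator_eq_zero_iff_notMem (s := {U : Ultrafilter _ | u y ∈ U}) (i := pure z) ℝ).not.trans
      not_not).symm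
  · show (u y).Countable
    rw [hu]
    exact ((h1 _).mono inter_subset_left).insert _
  · obtain ⟨_, ⟨x, x1, rfl⟩, x2⟩ := (wellFounded_lt (α := I)).has_min _ (hS.image Prod.fst)
    exact ⟨x, x1, eq_singleton_iff_unique_mem.2 ⟨⟨u1 x, x1⟩, fun y hy =>
      ((u2 y x hy.1).resolve_right (x2 _ ⟨y, hy.2, rfl⟩)).symm⟩⟩
  · obtain ⟨n, x, x1, x2⟩ := key hb h1 h2 hu D hD
    refine ⟨n, x, x1, fun U a b => ?_⟩
    obtain ⟨s, δ, δ0, k⟩ := MP_6ac155.nb f a b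
    obtain ⟨y, y1, y2, y3⟩ := x2 s
    refine ⟨y, y1, y2, k y fun V hV => ?_⟩
    have : f y V = f x V := by
      by_cases c : u x ∈ V
      · simp [f, c, (y3 V hV).2 c]
      · simp [f, c, mt (y3 V hV).1 c]
    rwa [this, sub_self, abs_zero]

end Pool.Agent.H.MP_6dddf9
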